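import Pool.Agent.helper56.P2.SpecU

set_option autoImplicit false

namespace Pool.Agent.P2U

open MeasureTheory Set Filter Topology Metric Complex
open scoped ENNReal ContDiff

theorem UDIV_int (Ψ : ℂ × ℂ → ℝ) (h : ContDiff ℝ 1 Ψ) (hc : HasCompactSupport Ψ) (e : ℂ × ℂ) :
    Integrable (fun p => fderiv ℝ Ψ p e) ∧ ∫ p, fderiv ℝ Ψ p e = 0 := by
  have h1 : Continuous (fun p => fderiv ℝ Ψ p e) :=
    (h.continuous_fderiv one_ne_zero).clm_apply continuous_const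
  have h2 : HasCompactSupport (fun p => fderiv ℝ Ψ p e) := hc.fderiv_apply ℝ e
  have h3 : Integrable (fun p => fderiv ℝ Ψ p e) := h1.integrable_of_hasCompactSupport h2
  refine ⟨h3, ?_⟩
  have h5 : Integrable Ψ := h.continuous.integrable_of_hasCompactSupport hc
  haveI : (volume : Measure (ℂ × ℂ)).IsAddHaarMeasure := by
    rw [MeasureTheory.Measure.volume_eq_prod]
    infer_instance
  have h4 := integral_mul_fderiv_eq_neg_fderiv_mul_of_integrable (μ := volume)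
    (f := fun _ : ℂ × ℂ => (1 : ℝ)) (g := Ψ) (v := e) (by simp) (by simpa using h3)
    (by simpa using h5) (fun x _ => differentiableAt_const _)
    (fun x _ => h.differentiable one_ne_zero x)
  simpa using h4

/-- derivative of `om` along a vector -/
theorem UDIV_om {P Q : ℂ × ℂ → ℂ} {p : ℂ × ℂ} (hP : AnalyticAt ℂ P p) (hQ : AnalyticAt ℂ Q p)
    (h0 : P p ≠ 0 ∨ Q p ≠ 0) :
    DifferentiableAt ℝ (om P Q) p ∧ ∀ (J : ℂ) (e : ℂ × ℂ), fderiv ℂ P p e = J * P p →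
      fderiv ℂ Q p e = J * Q p → fderiv ℝ (om P Q) p e = -4 * J.re * om P Q p := by
  have e1 : HasFDerivAt P ((fderiv ℂ P p).restrictScalars ℝ) p :=
    hP.differentiableAt.hasFDerivAt.restrictScalars ℝ
  have e2 : HasFDerivAt Q ((fderiv ℂ Q p).restrictScalars ℝ) p :=
    hQ.differentiableAt.hasFDerivAt.restrictScalars ℝ
  have e3 := e1.norm_sq
  have e4 := e2.norm_sq
  have e5 := e3.add e4
  have hS : 0 < ‖P p‖ ^ 2 + ‖Q p‖ ^ 2 := by
    rcases h0 with h | h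
    · have := norm_pos_iff.2 h
      positivity
    · have := norm_pos_iff.2 h
      positivity
  have e6 : HasDerivAt (fun s : ℝ => (s ^ 2)⁻¹)
      (-(2 * (‖P p‖ ^ 2 + ‖Q p‖ ^ 2)) / ((‖P p‖ ^ 2 + ‖Q p‖ ^ 2) ^ 2) ^ 2)
      (‖P p‖ ^ 2 + ‖Q p‖ ^ 2) := by
    have e9 : HasDerivAt (fun s : ℝ => (s ^ 2)⁻¹) _ (‖P p‖ ^ 2 + ‖Q p‖ ^ 2) :=
      (hasDerivAt_pow 2 (‖P p‖ ^ 2 + ‖Q p‖ ^ 2)).inv (pow_ne_zero 2 hS.ne')
    exact e9.congr_deriv (by norm_num)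
  have e7 := HasDerivAt.comp_hasFDerivAt p e6 e5
  have e8 : HasFDerivAt (om P Q) ((-(2 * (‖P p‖ ^ 2 + ‖Q p‖ ^ 2)) /
      ((‖P p‖ ^ 2 + ‖Q p‖ ^ 2) ^ 2) ^ 2) •
      (2 • (innerSL ℝ (P p)).comp ((fderiv ℂ P p).restrictScalars ℝ) +
        2 • (innerSL ℝ (Q p)).comp ((fderiv ℂ Q p).restrictScalars ℝ))) p := e7
  refine ⟨e8.differentiableAt, fun J e h1 h2 => ?_⟩
  have n1 : ∀ z : ℂ, inner ℝ z (J * z) = J.re * ‖z‖ ^ 2 := by
    intro z
    rw [Complex.inner, ← Complex.normSq_eq_norm_sq, Complex.normSq_apply]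
    simp only [Complex.mul_re, Complex.mul_im, Complex.conj_re, Complex.conj_im]
    ring
  rw [e8.fderiv]
  simp only [ContinuousLinearMap.smul_apply, ContinuousLinearMap.add_apply,
    ContinuousLinearMap.comp_apply, ContinuousLinearMap.coe_restrictScalars', innerSL_apply_apply,
    h1, h2, n1, smul_eq_mul, nsmul_eq_mul, Nat.cast_ofNat]
  unfold om
  field_simp
  ring

theorem UDIV_sym {P : ℂ × ℂ → ℂ} {p : ℂ × ℂ} (hP : AnalyticAt ℂ P p) :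
    DifferentiableAt ℂ (dx P) p ∧ DifferentiableAt ℂ (dv P) p ∧
      fderiv ℂ (dv P) p (1, 0) = fderiv ℂ (dx P) p (0, 1) := by
  have h1 : DifferentiableAt ℂ (fderiv ℂ P) p := hP.fderiv.differentiableAt
  have h2 : ∀ v : ℂ × ℂ, HasFDerivAt (fun q => fderiv ℂ P q v)
      ((ContinuousLinearMap.apply ℂ ℂ v).comp (fderiv ℂ (fderiv ℂ P) p)) p := fun v =>
    (ContinuousLinearMap.apply ℂ ℂ v).hasFDerivAt.comp p h1.hasFDerivAt
  refine ⟨(h2 _).differentiableAt, (h2 _).differentiableAt, ?_⟩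
  have h3 : fderiv ℂ (dv P) p (1, 0) = fderiv ℂ (fderiv ℂ P) p (1, 0) (0, 1) := by
    have : fderiv ℂ (dv P) p = _ := (h2 (0, 1)).fderiv
    rw [this]
    rfl
  have h4 : fderiv ℂ (dx P) p (0, 1) = fderiv ℂ (fderiv ℂ P) p (0, 1) (1, 0) := by
    have : fderiv ℂ (dx P) p = _ := (h2 (1, 0)).fderiv
    rw [this]
    rfl
  rw [h3, h4]
  have h5 : IsSymmSndFDerivAt ℂ P p :=
    ContDiffAt.isSymmSndFDerivAt_of_omega hP.contDiffAt
  exact h5 _ _

/-- the trace -/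
theorem UDIV_tr {P Q : ℂ × ℂ → ℂ} {p : ℂ × ℂ} (hP : AnalyticAt ℂ P p) (hQ : AnalyticAt ℂ Q p) :
    DifferentiableAt ℂ (cv P Q) p ∧ DifferentiableAt ℂ (cx P Q) p ∧
      fderiv ℂ (cv P Q) p (1, 0) - fderiv ℂ (cx P Q) p (0, 1) =
        2 * (dx Q p * dv P p - dx P p * dv Q p) := by
  obtain ⟨a1, a2, a3⟩ := UDIV_sym hP
  obtain ⟨b1, b2, b3⟩ := UDIV_sym hQ
  have p1 := hP.differentiableAt
  have q1 := hQ.differentiableAt
  have c1 : HasFDerivAt (cv P Q) ((Q p • fderiv ℂ (dv P) p + dv P p • fderiv ℂ Q p) -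
      (P p • fderiv ℂ (dv Q) p + dv Q p • fderiv ℂ P p)) p :=
    (q1.hasFDerivAt.mul a2.hasFDerivAt).sub (p1.hasFDerivAt.mul b2.hasFDerivAt)
  have c2 : HasFDerivAt (cx P Q) ((Q p • fderiv ℂ (dx P) p + dx P p • fderiv ℂ Q p) -
      (P p • fderiv ℂ (dx Q) p + dx Q p • fderiv ℂ P p)) p :=
    (q1.hasFDerivAt.mul a1.hasFDerivAt).sub (p1.hasFDerivAt.mul b1.hasFDerivAt)
  refine ⟨c1.differentiableAt, c2.differentiableAt, ?_⟩
  rw [c1.fderiv, c2.fderiv]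
  simp only [ContinuousLinearMap.sub_apply, ContinuousLinearMap.add_apply,
    ContinuousLinearMap.smul_apply, smul_eq_mul, a3, b3]
  change Q p * fderiv ℂ (dx P) p (0, 1) + dv P p * dx Q p -
    (P p * fderiv ℂ (dx Q) p (0, 1) + dv Q p * dx P p) -
    (Q p * fderiv ℂ (dx P) p (0, 1) + dx P p * dv Q p -
    (P p * fderiv ℂ (dx Q) p (0, 1) + dx Q p * dv P p)) = _
  ring

theorem UDIV_dec (a b : ℂ) : ((a, b) : ℂ × ℂ) = a.re • ((1, 0) : ℂ × ℂ) + a.im • ((I, 0) : ℂ × ℂ) +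
    b.re • ((0, 1) : ℂ × ℂ) + b.im • ((0, I) : ℂ × ℂ) := by
  ext <;> simp

theorem UDIV_lin (f : ℂ × ℂ →L[ℂ] ℂ) (a b : ℂ) : f (a, b) = a * f (1, 0) + b * f (0, 1) := by
  have : ((a, b) : ℂ × ℂ) = a • ((1, 0) : ℂ × ℂ) + b • ((0, 1) : ℂ × ℂ) := by
    ext <;> simp
  rw [this, map_add, map_smul, map_smul, smul_eq_mul, smul_eq_mul]

theorem UDIV_re {f : ℂ × ℂ → ℂ} {p : ℂ × ℂ} (hf : DifferentiableAt ℂ f p) (κ : ℂ) :
    HasFDerivAt (fun q => (κ * f q).re)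
      (reCLM.comp ((κ • fderiv ℂ f p).restrictScalars ℝ)) p ∧
    HasFDerivAt (fun q => (κ * f q).im)
      (imCLM.comp ((κ • fderiv ℂ f p).restrictScalars ℝ)) p := by
  have h1 : HasFDerivAt (fun q => κ * f q) ((κ • fderiv ℂ f p).restrictScalars ℝ) p :=
    (hf.hasFDerivAt.const_mul κ).restrictScalars ℝ
  exact ⟨reCLM.hasFDerivAt.comp p h1, imCLM.hasFDerivAt.comp p h1⟩

theorem UDIV_div {P Q : ℂ × ℂ → ℂ} {p : ℂ × ℂ} (hP : AnalyticAt ℂ P p) (hQ : AnalyticAt ℂ Q p)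
    (h0 : P p ≠ 0 ∨ Q p ≠ 0) (κ : ℂ) :
    fderiv ℝ (fun q => om P Q q * (κ * cv P Q q).re) p (1, 0) +
    fderiv ℝ (fun q => om P Q q * (κ * cv P Q q).im) p (I, 0) +
    fderiv ℝ (fun q => om P Q q * (-κ * cx P Q q).re) p (0, 1) +
    fderiv ℝ (fun q => om P Q q * (-κ * cx P Q q).im) p (0, I) = 0 := by
  obtain ⟨o1, o2⟩ := UDIV_om hP hQ h0
  obtain ⟨a1, a2, a3⟩ := UDIV_tr hP hQ
  obtain ⟨r1, r2⟩ := UDIV_re a1 κ
  obtain ⟨r3, r4⟩ := UDIV_re a2 (-κ)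
  rw [(o1.hasFDerivAt.fun_mul r1).fderiv, (o1.hasFDerivAt.fun_mul r2).fderiv,
    (o1.hasFDerivAt.fun_mul r3).fderiv, (o1.hasFDerivAt.fun_mul r4).fderiv]
  have h1 := o2 (κ * (dx Q p * dv P p - dx P p * dv Q p)) (κ * cv P Q p, -κ * cx P Q p)
    (by
      rw [UDIV_lin]
      change κ * cv P Q p * dx P p + -κ * cx P Q p * dv P p = _
      unfold cv cx
      ring)
    (by
      rw [UDIV_lin]
      change κ * cv P Q p * dx Q p + -κ * cx P Q p * dv Q p = _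
      unfold cv cx
      ring)
  rw [UDIV_dec] at h1
  simp only [map_add, map_smul, smul_eq_mul] at h1
  have h2 : fderiv ℂ (cv P Q) p (I, 0) = I * fderiv ℂ (cv P Q) p (1, 0) := by
    rw [UDIV_lin, zero_mul, add_zero]
  have h3 : fderiv ℂ (cx P Q) p (0, I) = I * fderiv ℂ (cx P Q) p (0, 1) := by
    rw [UDIV_lin, zero_mul, zero_add]
  have h4 : (κ * (2 * (dx Q p * dv P p - dx P p * dv Q p))).re =
      (κ * (fderiv ℂ (cv P Q) p (1, 0) - fderiv ℂ (cx P Q) p (0, 1))).re := by rw [a3]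
  have h5 : (κ * (2 * (dx Q p * dv P p - dx P p * dv Q p))).re =
      2 * (κ * (dx Q p * dv P p - dx P p * dv Q p)).re := by
    rw [show κ * (2 * (dx Q p * dv P p - dx P p * dv Q p)) =
      ((2 : ℝ) : ℂ) * (κ * (dx Q p * dv P p - dx P p * dv Q p)) by push_cast; ring,
      Complex.re_ofReal_mul]
  rw [h5] at h4
  simp only [ContinuousLinearMap.add_apply, ContinuousLinearMap.smul_apply, smul_eq_mul,
    ContinuousLinearMap.comp_apply, ContinuousLinearMap.coe_restrictScalars', reCLM_apply,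
    imCLM_apply, h2, h3]
  have h6 : (κ * (I * fderiv ℂ (cv P Q) p (1, 0))).im = (κ * fderiv ℂ (cv P Q) p (1, 0)).re := by
    rw [show κ * (I * fderiv ℂ (cv P Q) p (1, 0)) = I * (κ * fderiv ℂ (cv P Q) p (1, 0)) by ring,
      Complex.I_mul_im]
  have h7 : (-κ * (I * fderiv ℂ (cx P Q) p (0, 1))).im =
      (-κ * fderiv ℂ (cx P Q) p (0, 1)).re := by
    rw [show -κ * (I * fderiv ℂ (cx P Q) p (0, 1)) = I * (-κ * fderiv ℂ (cx P Q) p (0, 1)) by ring,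
      Complex.I_mul_im]
  rw [h6, h7]
  have h8 : (κ * (fderiv ℂ (cv P Q) p (1, 0) - fderiv ℂ (cx P Q) p (0, 1))).re =
      (κ * fderiv ℂ (cv P Q) p (1, 0)).re + (-κ * fderiv ℂ (cx P Q) p (0, 1)).re := by
    rw [← Complex.add_re]
    congr 1
    ring
  rw [h8] at h4
  linear_combination h1 - 2 * om P Q p * h4

theorem UDIV_ext {Ω : Set (ℂ × ℂ)} (hΩ : IsOpen Ω) {φ g : ℂ × ℂ → ℝ} (hφ : ContDiff ℝ 1 φ)
    (hc : HasCompactSupport φ) (hs : tsupport φ ⊆ Ω) (hg : ContDiffOn ℝ 1 g Ω) :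
    ContDiff ℝ 1 (fun q => φ q * g q) ∧ HasCompactSupport (fun q => φ q * g q) := by
  refine ⟨?_, hc.mul_right⟩
  rw [contDiff_iff_contDiffAt]
  intro q
  by_cases h : q ∈ tsupport φ
  · exact hφ.contDiffAt.mul (hg.contDiffAt (hΩ.mem_nhds (hs h)))
  · have h1 : (fun q => φ q * g q) =ᶠ[𝓝 q] fun _ => 0 := by
      have h2 : (tsupport φ)ᶜ ∈ 𝓝 q := (isClosed_tsupport φ).isOpen_compl.mem_nhds h
      filter_upwards [h2] with z hz
      rw [image_eq_zero_of_notMem_tsupport hz, zero_mul]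
    exact (contDiffAt_const (c := (0 : ℝ))).congr_of_eventuallyEq h1

theorem UDIV_open (a r : ℝ) : IsOpen (TB a r) :=
  (isOpen_lt (continuous_norm.comp continuous_fst) continuous_const).inter
    (isOpen_lt (continuous_norm.comp continuous_snd) continuous_const)

theorem UDIV_main (P Q : ℂ × ℂ → ℂ) (τ : ℝ) (h : Hol P Q 4 τ) (φ : ℂ × ℂ → ℝ)
    (hφ : ContDiff ℝ 1 φ) (hc : HasCompactSupport φ) (hs : tsupport φ ⊆ TB 4 τ) (κ : ℂ) :
    ∫ p, fderiv ℝ φ p (κ • ef P Q p) * om P Q p = 0 := by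
  have hΩ := UDIV_open 4 τ
  have hdx : ∀ {F : ℂ × ℂ → ℂ}, AnalyticOnNhd ℂ F (TB 4 τ) → ∀ v : ℂ × ℂ,
      AnalyticOnNhd ℂ (fun q => fderiv ℂ F q v) (TB 4 τ) := fun hF v q hq =>
    ((ContinuousLinearMap.apply ℂ ℂ v).analyticAt _).comp (hF q hq).fderiv
  have hcv : AnalyticOnNhd ℂ (cv P Q) (TB 4 τ) := fun q hq =>
    ((h.hQ q hq).mul (hdx h.hP (0, 1) q hq)).sub ((h.hP q hq).mul (hdx h.hQ (0, 1) q hq))
  have hcx : AnalyticOnNhd ℂ (cx P Q) (TB 4 τ) := fun q hq =>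
    ((h.hQ q hq).mul (hdx h.hP (1, 0) q hq)).sub ((h.hP q hq).mul (hdx h.hQ (1, 0) q hq))
  have hom : ContDiffOn ℝ 1 (om P Q) (TB 4 τ) := by
    intro q hq
    refine ContDiffAt.contDiffWithinAt ?_
    have a1 : ContDiffAt ℝ 1 P q := (h.hP q hq).contDiffAt.restrict_scalars ℝ
    have a2 : ContDiffAt ℝ 1 Q q := (h.hQ q hq).contDiffAt.restrict_scalars ℝ
    have a3 : ContDiffAt ℝ 1 (fun q => (‖P q‖ ^ 2 + ‖Q q‖ ^ 2) ^ 2) q :=
      ((a1.norm_sq ℝ).add (a2.norm_sq ℝ)).pow 2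
    refine a3.inv ?_
    have hS : 0 < ‖P q‖ ^ 2 + ‖Q q‖ ^ 2 := by
      rcases h.ne q hq with h | h
      · have := norm_pos_iff.2 h
        positivity
      · have := norm_pos_iff.2 h
        positivity
    positivity
  have hre : ∀ {F : ℂ × ℂ → ℂ}, AnalyticOnNhd ℂ F (TB 4 τ) → ∀ c : ℂ,
      ContDiffOn ℝ 1 (fun q => (c * F q).re) (TB 4 τ) ∧
      ContDiffOn ℝ 1 (fun q => (c * F q).im) (TB 4 τ) := by
    intro F hF c
    have h1 : ∀ q ∈ TB 4 τ, ContDiffAt ℝ 1 (fun q => c * F q) q := fun q hq =>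
      contDiffAt_const.mul ((hF q hq).contDiffAt.restrict_scalars ℝ)
    exact ⟨fun q hq => (reCLM.contDiff.contDiffAt.comp q (h1 q hq)).contDiffWithinAt,
      fun q hq => (imCLM.contDiff.contDiffAt.comp q (h1 q hq)).contDiffWithinAt⟩
  have g1 : ContDiffOn ℝ 1 (fun q => om P Q q * (κ * cv P Q q).re) (TB 4 τ) :=
    hom.mul (hre hcv κ).1
  have g2 : ContDiffOn ℝ 1 (fun q => om P Q q * (κ * cv P Q q).im) (TB 4 τ) :=
    hom.mul (hre hcv κ).2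
  have g3 : ContDiffOn ℝ 1 (fun q => om P Q q * (-κ * cx P Q q).re) (TB 4 τ) :=
    hom.mul (hre hcx (-κ)).1
  have g4 : ContDiffOn ℝ 1 (fun q => om P Q q * (-κ * cx P Q q).im) (TB 4 τ) :=
    hom.mul (hre hcx (-κ)).2
  obtain ⟨u1, u2⟩ := UDIV_ext hΩ hφ hc hs g1
  obtain ⟨v1, v2⟩ := UDIV_ext hΩ hφ hc hs g2
  obtain ⟨w1, w2⟩ := UDIV_ext hΩ hφ hc hs g3
  obtain ⟨z1, z2⟩ := UDIV_ext hΩ hφ hc hs g4
  obtain ⟨i1, j1⟩ := UDIV_int _ u1 u2 (1, 0)
  obtain ⟨i2, j2⟩ := UDIV_int _ v1 v2 (I, 0)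
  obtain ⟨i3, j3⟩ := UDIV_int _ w1 w2 (0, 1)
  obtain ⟨i4, j4⟩ := UDIV_int _ z1 z2 (0, I)
  have key : ∀ p, fderiv ℝ φ p (κ • ef P Q p) * om P Q p =
      fderiv ℝ (fun q => φ q * (om P Q q * (κ * cv P Q q).re)) p (1, 0) +
      fderiv ℝ (fun q => φ q * (om P Q q * (κ * cv P Q q).im)) p (I, 0) +
      fderiv ℝ (fun q => φ q * (om P Q q * (-κ * cx P Q q).re)) p (0, 1) +
      fderiv ℝ (fun q => φ q * (om P Q q * (-κ * cx P Q q).im)) p (0, I) := by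
    intro p
    by_cases hp : p ∈ tsupport φ
    · have hpΩ := hs hp
      have d := UDIV_div (h.hP p hpΩ) (h.hQ p hpΩ) (h.ne p hpΩ) κ
      have hφd : DifferentiableAt ℝ φ p := hφ.differentiable one_ne_zero p
      have gd : ∀ {g : ℂ × ℂ → ℝ}, ContDiffOn ℝ 1 g (TB 4 τ) → DifferentiableAt ℝ g p :=
        fun hg => (hg.contDiffAt (hΩ.mem_nhds hpΩ)).differentiableAt one_ne_zero
      rw [(hφd.hasFDerivAt.fun_mul (gd g1).hasFDerivAt).fderiv,
        (hφd.hasFDerivAt.fun_mul (gd g2).hasFDerivAt).fderiv,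
        (hφd.hasFDerivAt.fun_mul (gd g3).hasFDerivAt).fderiv,
        (hφd.hasFDerivAt.fun_mul (gd g4).hasFDerivAt).fderiv]
      have e1 : κ • ef P Q p = (κ * cv P Q p, -κ * cx P Q p) := by
        unfold ef
        ext
        · simp
        · simp
      rw [e1, UDIV_dec]
      simp only [map_add, map_smul, smul_eq_mul, ContinuousLinearMap.add_apply,
        ContinuousLinearMap.smul_apply]
      linear_combination (-(φ p)) * d
    · have h2 : (tsupport φ)ᶜ ∈ 𝓝 p := (isClosed_tsupport φ).isOpen_compl.mem_nhds hp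
      have hz : φ =ᶠ[𝓝 p] fun _ => 0 := by
        filter_upwards [h2] with z hz
        exact image_eq_zero_of_notMem_tsupport hz
      have hz' : ∀ g : ℂ × ℂ → ℝ, (fun q => φ q * g q) =ᶠ[𝓝 p] fun _ => 0 := by
        intro g
        filter_upwards [hz] with z hz
        rw [hz, zero_mul]
      rw [hz.fderiv_eq, (hz' _).fderiv_eq, (hz' _).fderiv_eq, (hz' _).fderiv_eq,
        (hz' _).fderiv_eq]
      simp
  simp_rw [key]
  have k1 : Integrable (fun p =>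
      fderiv ℝ (fun q => φ q * (om P Q q * (κ * cv P Q q).re)) p (1, 0) +
      fderiv ℝ (fun q => φ q * (om P Q q * (κ * cv P Q q).im)) p (I, 0)) := i1.add i2
  have k2 : Integrable (fun p =>
      fderiv ℝ (fun q => φ q * (om P Q q * (κ * cv P Q q).re)) p (1, 0) +
      fderiv ℝ (fun q => φ q * (om P Q q * (κ * cv P Q q).im)) p (I, 0) +
      fderiv ℝ (fun q => φ q * (om P Q q * (-κ * cx P Q q).re)) p (0, 1)) := k1.add i3
  rw [integral_add k2 i4, integral_add k1 i3, integral_add i1 i2, j1, j2, j3, j4]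
  simp

theorem UDIV : UDIV_stmt := by
  intro P Q τ h φ hφ hc hs
  refine ⟨?_, UDIV_main P Q τ h φ hφ hc hs I⟩
  have := UDIV_main P Q τ h φ hφ hc hs 1
  simpa using this

end Pool.Agent.P2U
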