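import Pool.Agent.helper83.P2.SpecV
import Pool.Agent.helper90.P2.COREd

set_option autoImplicit false

open scoped ContDiff Topology
open MeasureTheory Filter Set Metric MvPolynomial Pool.Agent.helper37.QA Pool.Agent.P2

namespace Pool.Agent.P2V

open Pool.Agent.P2

theorem VJB_evald (q : MvPolynomial (Fin 3) ℂ) : Differentiable ℂ fun x : E3 => eval x q := by
  induction q using MvPolynomial.induction_on with
  | C a => simp
  | add p q hp hq =>
    simp only [map_add]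
    exact hp.add hq
  | mul_X p n hp =>
    simp only [map_mul, eval_X]
    exact hp.mul (differentiable_apply n)

theorem VJB_eta_zero {z : ℂ} (h : 4 / 5 ≤ ‖z‖) : eta z = 0 := by
  refine Real.smoothTransition.zero_of_nonpos ?_
  rw [Complex.normSq_eq_norm_sq]
  nlinarith [norm_nonneg z]

theorem VJB_eta_cont : Continuous eta := by
  unfold eta
  exact Real.smoothTransition.continuous.comp (continuous_const.sub (continuous_const.mul Complex.continuous_normSq))

theorem VJB_gp {ι : Fin 2} {c : ℂ} {κ : ℝ} {γ : ℂ → ℂ} (hγ : DifferentiableOn ℂ γ (ball 0 1)) :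
    DifferentiableOn ℂ (gp ι c κ γ) (ball (0 : ℂ) 1 ×ˢ univ) := by
  have h1 : DifferentiableOn ℂ (fun p : ℂ × ℂ => c + κ * p.1) (ball (0 : ℂ) 1 ×ˢ univ) :=
    ((differentiable_fst.const_mul _).const_add c).differentiableOn
  have h2 : DifferentiableOn ℂ (fun p : ℂ × ℂ => γ p.1 + p.2) (ball (0 : ℂ) 1 ×ˢ univ) :=
    (hγ.comp differentiable_fst.differentiableOn (fun p hp => hp.1)).add differentiable_snd.differentiableOn
  rw [differentiableOn_pi]
  intro i
  have h3 : ∀ p : ℂ × ℂ, gp ι c κ γ p i = cht ι (c + κ * p.1) (γ p.1 + p.2) i := fun p => rfl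
  unfold gp cht
  by_cases hι : ι = 0
  · simp only [if_pos hι]
    fin_cases i
    · exact differentiableOn_const _
    · exact h1
    · exact h2
  · simp only [if_neg hι]
    fin_cases i
    · exact h1
    · exact differentiableOn_const _
    · exact h2

theorem VJB (hUN1 : UN1_stmt) : VJB_stmt := by
  intro d f U hd hU N r κ ι c γ Θ hr hγ hcone hΘ
  obtain ⟨C, -, -, -, hpq, -⟩ := hUN1 d f U hd hU
  set A : Set (ℂ × ℂ) := ball (0 : ℂ) (9 / 10) ×ˢ ball (0 : ℂ) r with hAdef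
  have hA : IsOpen A := isOpen_ball.prod isOpen_ball
  have hsub : A ⊆ ball (0 : ℂ) 1 ×ˢ univ := prod_mono (ball_subset_ball (by norm_num)) (subset_univ _)
  have hIt : ∀ i : Fin 3, DifferentiableOn ℂ (fun p => It f N (gp ι c κ γ p) i) A := fun i =>
    (VJB_evald (iter f.F N i)).comp_differentiableOn ((VJB_gp hγ).mono hsub)
  have hn : ∀ p ∈ A, gP f N ι c κ γ p ≠ 0 ∨ gQ f N ι c κ γ p ≠ 0 := by
    intro p hp
    by_contra hcon
    push Not at hcon
    obtain ⟨e1, e2⟩ := hcon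
    have h1 : gp ι c κ γ p ∈ cone U := hcone p.1 (ball_subset_ball (by norm_num) hp.1) p.2 hp.2
    obtain ⟨hx, hx'⟩ := h1
    have h2 := (hpq N (gp ι c κ γ p) ⟨hx, subset_closure hx'⟩).1
    unfold pq at h2
    have e1' : It f N (gp ι c κ γ p) 0 = 0 := e1
    have e2' : It f N (gp ι c κ γ p) 1 = 0 := e2
    rw [e1', e2', map_zero, add_zero] at h2
    exact lt_irrefl _ h2
  obtain ⟨cw1, cw2, com⟩ := CORE_geo (P := gP f N ι c κ γ) (Q := gQ f N ι c κ γ) hA (hIt 0) (hIt 1) hn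
  have cev : ContinuousOn (fun p => P2.ev (gP f N ι c κ γ) (gQ f N ι c κ γ) p) A := cw2.neg.prodMk cw1
  have cG : ContinuousOn (Ge f N Θ ι c κ γ) A :=
    ((CORE_levcont hA hΘ cev).mul com).div_const _
  -- continuity of the integrand
  have hcont : ContinuousOn (Function.uncurry (fun (v ξ : ℂ) => eta ξ ^ 2 * Ge f N Θ ι c κ γ (ξ, v)))
      (ball (0 : ℂ) r ×ˢ univ) := by
    rintro ⟨v, ξ⟩ ⟨hv, -⟩
    refine ContinuousAt.continuousWithinAt ?_
    by_cases hξ : ‖ξ‖ < 9 / 10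
    · have h1 : ((ξ, v) : ℂ × ℂ) ∈ A := ⟨mem_ball_zero_iff.2 hξ, hv⟩
      have h2 : ContinuousAt (Ge f N Θ ι c κ γ) (ξ, v) := cG.continuousAt (hA.mem_nhds h1)
      have h3 : ContinuousAt (fun q : ℂ × ℂ => Ge f N Θ ι c κ γ (q.2, q.1)) (v, ξ) :=
        ContinuousAt.comp (f := fun q : ℂ × ℂ => (q.2, q.1)) (x := (v, ξ)) h2 (by fun_prop)
      exact ((VJB_eta_cont.comp continuous_snd).pow 2).continuousAt.mul h3
    · rw [not_lt] at hξ
      have h1 : Function.uncurry (fun (v ξ : ℂ) => eta ξ ^ 2 * Ge f N Θ ι c κ γ (ξ, v)) =ᶠ[𝓝 (v, ξ)]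
          fun _ => 0 := by
        have h2 : {q : ℂ × ℂ | 4 / 5 < ‖q.2‖} ∈ 𝓝 ((v, ξ) : ℂ × ℂ) :=
          (isOpen_lt continuous_const (continuous_norm.comp continuous_snd)).mem_nhds
            (lt_of_lt_of_le (by norm_num) hξ)
        filter_upwards [h2] with q hq
        change eta q.2 ^ 2 * _ = 0
        rw [VJB_eta_zero (le_of_lt hq)]
        ring
      exact (continuousAt_const (y := (0 : ℝ))).congr h1.symm
  have hzero : ∀ v ξ : ℂ, v ∈ ball (0 : ℂ) r → ξ ∉ closedBall (0 : ℂ) (4 / 5) →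
      eta ξ ^ 2 * Ge f N Θ ι c κ γ (ξ, v) = 0 := by
    intro v ξ _ hξ
    rw [mem_closedBall_zero_iff, not_le] at hξ
    rw [VJB_eta_zero hξ.le]
    ring
  refine ⟨continuousOn_integral_of_compact_support (isCompact_closedBall (0 : ℂ) (4 / 5)) hcont hzero, ?_⟩
  intro v hv
  have h1 : Continuous (fun ξ => eta ξ ^ 2 * Ge f N Θ ι c κ γ (ξ, v)) := by
    rw [← continuousOn_univ]
    exact hcont.comp (f := fun ξ : ℂ => (v, ξ)) (by fun_prop) (fun ξ _ => ⟨hv, mem_univ _⟩)
  refine h1.integrable_of_hasCompactSupport ?_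
  exact HasCompactSupport.intro (isCompact_closedBall (0 : ℂ) (4 / 5)) (fun ξ hξ => hzero v ξ hv hξ)

end Pool.Agent.P2V
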